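import Pool.Agent.Helper45_PGF.Stmts

/-!
Module COR of squad PGF: the theorem on weighted complete intersections with cyclic equations is a
special case of Theorem F.
-/

set_option autoImplicit false

open Polynomial CategoryTheory AlgebraicGeometry

universe u v₁ v₂ v₃ v₄

namespace Pool.Agent.PGF.H64

lemma num_contra {ι τ : Type*} [Fintype ι] [Fintype τ] (m a : ι → ℕ) (d : τ → ℕ)
    (hma : ∀ i, 2 ≤ m i ∧ 1 ≤ a i)
    (hnum : (∑ i, m i * a i + ∑ j, d j ≤ 1 + ∑ i, a i ∧
      ((∃ i, 3 ∣ m i ∨ 4 ∣ m i ∨ (2 ∣ m i ∧ 2 ≤ a i)) ∨ ∃ i i', i ≠ i' ∧ 2 ∣ m i ∧ 2 ∣ m i')) ∨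
    (∑ i, m i * a i + ∑ j, d j < 1 + ∑ i, a i ∧ Nonempty ι)) : False := by
  classical
  have h2 : ∀ i, a i + 1 ≤ m i * a i := by
    intro i
    have h := Nat.mul_le_mul_right (a i) (hma i).1
    have := (hma i).2
    omega
  have hsingle : ∀ (i₀ : ι) (c : ℕ), a i₀ + c ≤ m i₀ * a i₀ →
      ∑ i, a i + c ≤ ∑ i, m i * a i := by
    intro i₀ c hc
    have h1 : ∑ i, (a i + if i = i₀ then c else 0) ≤ ∑ i, m i * a i := by
      refine Finset.sum_le_sum fun i _ => ?_
      by_cases hi : i = i₀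
      · subst hi
        rw [if_pos rfl]
        exact hc
      · rw [if_neg hi]
        have := h2 i
        omega
    rw [Finset.sum_add_distrib] at h1
    simpa using h1
  rcases hnum with ⟨hnum, ⟨i₀, hi⟩ | ⟨i₀, i₁, hne, -, -⟩⟩ | ⟨hnum, ⟨i₀⟩⟩
  · have h3 : a i₀ + 2 ≤ m i₀ * a i₀ := by
      have h4 := (hma i₀).1
      have h5 := (hma i₀).2
      rcases hi with hi | hi | ⟨-, hi⟩
      · have h6 : 3 ≤ m i₀ := by omega
        have h7 := Nat.mul_le_mul_right (a i₀) h6
        omega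
      · have h6 : 3 ≤ m i₀ := by omega
        have h7 := Nat.mul_le_mul_right (a i₀) h6
        omega
      · have h7 := Nat.mul_le_mul_right (a i₀) h4
        omega
    have h8 := hsingle i₀ 2 h3
    omega
  · have h1 : ∑ i, (a i + ((if i = i₀ then 1 else 0) + if i = i₁ then 1 else 0)) ≤
        ∑ i, m i * a i := by
      refine Finset.sum_le_sum fun i _ => ?_
      have := h2 i
      by_cases hi : i = i₀
      · subst hi
        rw [if_pos rfl, if_neg hne]
        omega
      · rw [if_neg hi]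
        split_ifs <;> omega
    rw [Finset.sum_add_distrib, Finset.sum_add_distrib] at h1
    simp only [Finset.sum_ite_eq', Finset.mem_univ, if_true] at h1
    omega
  · have h8 := hsingle i₀ 1 (h2 i₀)
    omega

lemma exists_pair {σ : Type*} [Fintype σ] (w : σ → ℕ) (hw : Finset.univ.gcd w = 1) :
    (∃ l l', l ≠ l' ∧ 0 < w l ∧ 0 < w l') ∨ ∑ l, w l = 1 := by
  classical
  obtain ⟨l₀, hl₀⟩ : ∃ l₀, 0 < w l₀ := by
    by_contra hno
    push Not at hno
    have h1 : Finset.univ.gcd w = 0 := by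
      rw [Finset.gcd_eq_zero_iff]
      intro l _
      have := hno l
      omega
    rw [h1] at hw
    exact zero_ne_one hw
  by_cases h : ∃ l, l ≠ l₀ ∧ 0 < w l
  · obtain ⟨l, hl, hl'⟩ := h
    exact Or.inl ⟨l, l₀, hl, hl', hl₀⟩
  · push Not at h
    refine Or.inr ?_
    have h0 : ∀ l, l ≠ l₀ → w l = 0 := fun l hl => by have := h l hl; omega
    have h1 : ∑ l, w l = w l₀ := by
      refine Finset.sum_eq_single l₀ (fun l _ hl => h0 l hl) (fun hl => ?_)
      exact absurd (Finset.mem_univ _) hl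
    have h2 : w l₀ ∣ Finset.univ.gcd w := by
      refine Finset.dvd_gcd fun l _ => ?_
      by_cases hl : l = l₀
      · rw [hl]
      · rw [h0 l hl]
        exact dvd_zero _
    rw [hw] at h2
    rw [h1]
    exact Nat.dvd_one.mp h2

/-- the generic arc of degree one -/
noncomputable def genP (k : Type u) [Field k] {σ : Type v₁} (w : σ → ℕ) (n : ℕ)
    (eq : (Σ l, Fin (w l)) → Fin n) (l : σ) : (FractionRing (MvPolynomial (Fin n) k))[X] :=
  PGE.arcP 1 (w l) fun q => algebraMap (MvPolynomial (Fin n) k)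
    (FractionRing (MvPolynomial (Fin n) k)) (MvPolynomial.X (eq ⟨l, q⟩))

lemma genP_coeff (k : Type u) [Field k] {σ : Type v₁} (w : σ → ℕ) (n : ℕ)
    (eq : (Σ l, Fin (w l)) → Fin n) (l : σ) (q : Fin (w l)) :
    (genP k w n eq l).coeff (q.1 + 1) = algebraMap (MvPolynomial (Fin n) k)
      (FractionRing (MvPolynomial (Fin n) k)) (MvPolynomial.X (eq ⟨l, q⟩)) :=
  PGE.arcP_coeff _ _ _ _

lemma coeff_one_pow {E : Type*} [Field E] (p : E[X]) (h : p.coeff 0 = 1) (n : ℕ) :
    (p ^ n).coeff 1 = n * p.coeff 1 := by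
  have h0 : ∀ n : ℕ, (p ^ n).coeff 0 = 1 := by
    intro n
    rw [coeff_zero_eq_eval_zero, eval_pow, ← coeff_zero_eq_eval_zero, h, one_pow]
  induction n with
  | zero => simp [coeff_one]
  | succ n ih =>
    rw [pow_succ, coeff_mul, Finset.Nat.antidiagonal_succ, Finset.sum_cons,
      Finset.Nat.antidiagonal_zero]
    simp only [Finset.map_singleton, Finset.sum_singleton, Function.Embedding.prodMap,
      Function.Embedding.coeFn_mk, Prod.map, h0, h, ih, Function.Embedding.refl_apply]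
    push_cast
    ring

theorem genP_nonconst (k : Type u) [Field k] [CharZero k] {σ : Type v₁} (w : σ → ℕ) (n : ℕ)
    (eq : (Σ l, Fin (w l)) ≃ Fin n) (l l' : σ) (hne : l ≠ l') (hl : 0 < w l) (hl' : 0 < w l') :
    ¬ IsConst w (genP k w n eq) := by
  intro h
  have h1 := congrArg (fun p => p.coeff 1) (h l l')
  have hc : ∀ l, (genP k w n eq l).coeff 0 = 1 := fun l => PGE.arcP_coeff_zero _ _ _
  simp only [coeff_one_pow _ (hc _)] at h1
  have h2 := genP_coeff k w n eq l ⟨0, hl⟩
  have h3 := genP_coeff k w n eq l' ⟨0, hl'⟩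
  simp only [zero_add] at h2 h3
  rw [h2, h3] at h1
  have hinj : Function.Injective (algebraMap (MvPolynomial (Fin n) k)
      (FractionRing (MvPolynomial (Fin n) k))) := IsFractionRing.injective _ _
  have h4 : (w l' : MvPolynomial (Fin n) k) * MvPolynomial.X (eq ⟨l, ⟨0, hl⟩⟩) =
      (w l : MvPolynomial (Fin n) k) * MvPolynomial.X (eq ⟨l', ⟨0, hl'⟩⟩) := by
    apply hinj
    rw [map_mul, map_mul, map_natCast, map_natCast]
    exact h1
  have h5 := congrArg (MvPolynomial.eval (fun j => if j = eq ⟨l, ⟨0, hl⟩⟩ then (1 : k) else 0)) h4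
  rw [map_mul, map_mul, map_natCast, map_natCast, MvPolynomial.eval_X, MvPolynomial.eval_X,
    if_pos rfl, if_neg, mul_one, mul_zero] at h5
  · exact hl'.ne' (Nat.cast_eq_zero.mp h5)
  · intro h6
    have h7 := congrArg Sigma.fst (eq.injective h6)
    exact hne h7.symm

theorem freeArc (k : Type u) [Field k] [CharZero k] {σ : Type v₁} {ι : Type v₂} [Fintype σ]
    (w : σ → ℕ) (m a : ι → ℕ) (g : ι → MvPolynomial σ k)
    (hg : ∀ i, (g i).IsWeightedHomogeneous w (m i * a i)) (z : σ → k)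
    (hgz : ∀ i, MvPolynomial.eval z (g i) ≠ 0) (l l' : σ) (hne : l ≠ l') (hl : 0 < w l)
    (hl' : 0 < w l') : FreeArc ∅ w 1 g m a (∑ l, w l) z := by
  classical
  have hcard : Fintype.card (Σ l, Fin (w l)) = Fintype.card (Fin (∑ l, w l)) := by
    rw [Fintype.card_sigma, Fintype.card_fin]
    simp
  let eq : (Σ l, Fin (w l)) ≃ Fin (∑ l, w l) := Fintype.equivOfCardEq hcard
  let n := ∑ l, w l
  let E := FractionRing (MvPolynomial (Fin n) k)
  let p : σ → E[X] := genP k w n eq
  have hp0 : ∀ l, (p l).coeff 0 = 1 := fun l => PGE.arcP_coeff_zero _ _ _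
  have hpd : ∀ l, (p l).natDegree ≤ w l := fun l => PGE.arcP_natDegree _ _ _
  let G : ι → E[X] := fun i => MvPolynomial.aeval (fun l => C (algebraMap k E (z l)) * p l) (g i)
  have hG0 : ∀ i, (G i).coeff 0 = algebraMap k E (MvPolynomial.eval z (g i)) := by
    intro i
    have h : ((Polynomial.aeval (0 : E)).restrictScalars k).comp
        (MvPolynomial.aeval (fun l => C (algebraMap k E (z l)) * p l) : MvPolynomial σ k →ₐ[k] E[X]) =
        (Algebra.ofId k E).comp (MvPolynomial.aeval z : MvPolynomial σ k →ₐ[k] k) := by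
      apply MvPolynomial.algHom_ext
      intro l
      rw [AlgHom.comp_apply, AlgHom.comp_apply, MvPolynomial.aeval_X, MvPolynomial.aeval_X,
        AlgHom.restrictScalars_apply, Polynomial.coe_aeval_eq_eval, eval_mul, eval_C,
        ← coeff_zero_eq_eval_zero, hp0, mul_one]
      rfl
    have h1 := DFunLike.congr_fun h (g i)
    rw [AlgHom.comp_apply, AlgHom.comp_apply, AlgHom.restrictScalars_apply,
      Polynomial.coe_aeval_eq_eval, ← coeff_zero_eq_eval_zero] at h1
    exact h1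
  have hGd : ∀ i, (G i).natDegree ≤ m i * a i := by
    intro i
    refine (PGE.natDegree_aeval_le w (g i) _ fun l => ?_).trans (PGE.wtd_le w _ _ (hg i))
    exact (natDegree_C_mul_le _ _).trans (hpd l)
  have hne0 : ∀ i, algebraMap k E (MvPolynomial.eval z (g i)) ≠ 0 := fun i =>
    (_root_.map_ne_zero _).mpr (hgz i)
  refine ⟨E, inferInstance, inferInstance, p,
    fun i => C (algebraMap k E (MvPolynomial.eval z (g i)))⁻¹ * G i, fun _ => 1,
    ⟨hp0, fun l => ?_, fun F hF => absurd hF (Set.notMem_empty _)⟩,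
    genP_nonconst k w n eq l l' hne hl hl', fun i => ⟨?_, ?_, ?_, ?_⟩,
    fun j => ((eq.symm j).1, (eq.symm j).2.1 + 1), ?_⟩
  · rw [one_mul]
    exact hpd l
  · exact (natDegree_C_mul_le _ _).trans (hGd i)
  · rw [coeff_C_mul, hG0, inv_mul_cancel₀ (hne0 i)]
  · exact coeff_one_zero
  · rw [one_pow, mul_one, ← mul_assoc, ← C_mul, mul_inv_cancel₀ (hne0 i), C_1, one_mul]
  · have h1 : (fun j : Fin n => (p (eq.symm j).1).coeff ((eq.symm j).2.1 + 1)) =
        fun j => (IsScalarTower.toAlgHom k (MvPolynomial (Fin n) k) E) (MvPolynomial.X j) := by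
      funext j
      rw [show (p (eq.symm j).1).coeff ((eq.symm j).2.1 + 1) = _ from
        genP_coeff k w n eq (eq.symm j).1 (eq.symm j).2]
      rw [Sigma.eta, Equiv.apply_symm_apply]
      rfl
    change AlgebraicIndependent k (fun j : Fin n => (p (eq.symm j).1).coeff ((eq.symm j).2.1 + 1))
    rw [h1]
    exact (MvPolynomial.algebraicIndependent_X (Fin n) k).map'
      (f := IsScalarTower.toAlgHom k (MvPolynomial (Fin n) k) E) (IsFractionRing.injective _ _)

theorem cor (hF : MAINFStmt.{u, v₁, v₂, v₃, v₄}) : PGE.MAINHStmt.{u, v₁, v₂, v₃, v₄} := by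
  intro k _ _ _ X f _ _ σ ι τ _ _ _ w m a d g h K _ θ x y hw hma hg hh hx hy hP hθ hfin hnum
  classical
  have hpair : ∃ l l', l ≠ l' ∧ 0 < w l ∧ 0 < w l' := by
    rcases exists_pair w hw with h1 | h1
    · exact h1
    · exfalso
      rw [h1] at hnum
      exact num_contra m a d hma hnum
  obtain ⟨l, l', hne, hl, hl'⟩ := hpair
  have hideal : towerIdeal (∅ : Set (MvPolynomial σ k)) m g h = PGE.cyclicIdeal m g h := by
    unfold towerIdeal PGE.cyclicIdeal
    rw [Set.image_empty, Set.empty_union]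
  refine hF k X f σ ι τ w ∅ m a a d 1 (∑ l, w l) g h K θ x y hw
    (fun F hF => absurd hF (Set.notMem_empty _)) (fun i => (hma i).1) hg hh hx hy
    (by rw [hideal]; exact hP) hθ hfin ?_ ?_
  · refine ⟨(∏ l, MvPolynomial.X (Sum.inl l)) * ∏ i, MvPolynomial.X (Sum.inr i), ?_, ?_⟩
    · rw [MvPolynomial.eval₂_mul, MvPolynomial.eval₂_prod, MvPolynomial.eval₂_prod]
      refine mul_ne_zero (Finset.prod_ne_zero_iff.mpr fun l _ => ?_)
        (Finset.prod_ne_zero_iff.mpr fun i _ => ?_)
      · rw [MvPolynomial.eval₂_X]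
        exact hx l
      · rw [MvPolynomial.eval₂_X]
        exact hy i
    · intro z y₀ hrel hq
      rw [map_mul, map_prod, map_prod] at hq
      have hy0 : ∀ i, y₀ i ≠ 0 := by
        intro i
        have h1 := Finset.prod_ne_zero_iff.mp (right_ne_zero_of_mul hq) i (Finset.mem_univ i)
        rw [MvPolynomial.eval_X] at h1
        exact h1
      have hgz : ∀ i, MvPolynomial.eval z (g i) ≠ 0 := by
        intro i
        have h1 := hrel (MvPolynomial.X (Sum.inr i) ^ m i -
          MvPolynomial.rename (Sum.inl : σ → σ ⊕ ι) (g i)) (by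
            have h2 := hP.1.2 (Ideal.subset_span (Or.inr ⟨i, rfl⟩) :
              MvPolynomial.X (Sum.inr i) ^ m i -
              MvPolynomial.rename (Sum.inl : σ → σ ⊕ ι) (g i) ∈ PGE.cyclicIdeal m g h)
            exact h2)
        rw [map_sub, map_pow, MvPolynomial.eval_X, MvPolynomial.eval_rename, sub_eq_zero] at h1
        have h3 : MvPolynomial.eval (Sum.elim z y₀ ∘ Sum.inl) (g i) = MvPolynomial.eval z (g i) := rfl
        rw [h3] at h1
        rw [← h1]
        exact pow_ne_zero _ (hy0 i)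
      refine ⟨?_, freeArc k w m a g hg z hgz l l' hne hl hl'⟩
      intro e' he' p hp
      have he0 : e' = 0 := by omega
      subst he0
      have h1 : ∀ l, p l = 1 := by
        intro l
        have h2 := hp.2.1 l
        rw [zero_mul] at h2
        rw [eq_C_of_natDegree_eq_zero (Nat.le_zero.mp h2), hp.1 l, C_1]
      intro l l'
      rw [h1, h1, one_pow, one_pow]
  · unfold NumF
    simp only [one_mul]
    rcases hnum with ⟨hnum, ⟨i₀, hi⟩ | ⟨i₀, i₁, hne', h0, h1⟩⟩ | ⟨hnum, ⟨i₀⟩⟩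
    · refine Or.inl ⟨hnum, ?_⟩
      rcases hi with hi | hi | hi
      · exact Or.inl ⟨i₀, (hma i₀).2, Or.inl hi⟩
      · exact Or.inl ⟨i₀, (hma i₀).2, Or.inr hi⟩
      · exact Or.inr (Or.inl ⟨i₀, hi.2, hi.1⟩)
    · exact Or.inl ⟨hnum, Or.inr (Or.inr ⟨i₀, i₁, hne', h0, h1, (hma i₀).2, (hma i₁).2⟩)⟩
    · exact Or.inr ⟨hnum, i₀, (hma i₀).2⟩

end Pool.Agent.PGF.H64
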