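import Pool.Agent.Helper45_PGF.Stmts
import Pool.Agent.Helper45_PGE.All

/-!
Module FARC of squad PGF: arcs through a general point with function field of genus at most one.
-/

set_option autoImplicit false

open Polynomial

universe u v₁ v₂ v₃

namespace Pool.Agent.PGF.H64

open Pool.Agent.PGE

section

variable {k : Type u} [Field k] [IsAlgClosed k] [CharZero k] {σ : Type v₁} {ι : Type v₂}
  {τ : Type v₃} [Fintype σ] [Fintype ι] [Fintype τ]

/-- the general pattern -/
theorem arcF (hS : SOLStmt.{u, v₁, v₂, v₃}) (w : σ → ℕ) (J : Set (MvPolynomial σ k)) (e N : ℕ)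
    (m ℓ r n : ι → ℕ) (cc : ι → ℕ → ℕ) (d : τ → ℕ)
    (g : ι → MvPolynomial σ k) (h : τ → MvPolynomial σ k) (z : σ → k) (y : ι → k)
    (hw : Finset.univ.gcd w = 1) (hJ : ∀ F ∈ J, ∃ n, F.IsWeightedHomogeneous w n)
    (hh : ∀ j, (h j).IsWeightedHomogeneous w (d j)) (hm : ∀ i, m i ≠ 0)
    (hr : ∀ i, r i ≤ ℓ i) (hcr : ∀ i, ∑ q ∈ Finset.range (n i), cc i q = m i * r i)
    (hc : ∀ i q, q < n i → cc i q ≠ 0)
    (hnum : ∑ i, m i * ℓ i + e * ∑ j, d j + ∑ i, r i + 1 < N + ∑ i, ℓ i + ∑ i, n i)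
    (hNo : NoArc J w e z) (hFr : FreeArc J w e g m ℓ N z)
    (hhz : ∀ j, MvPolynomial.eval z (h j) = 0)
    (hy : ∀ i, y i ≠ 0 ∧ y i ^ m i = MvPolynomial.eval z (g i))
    (hfld : ∀ β : ι → ℕ → k, ∃ (L : IntermediateField k (LaurentSeries k))
      (U : ι → PowerSeries k), ((PowerSeries.X : PowerSeries k) : LaurentSeries k) ∈ L ∧
      Good k L ∧ ∀ i, (U i : LaurentSeries k) ∈ L ∧ PowerSeries.constantCoeff (U i) = 1 ∧
        U i ^ m i = ∏ q ∈ Finset.range (n i), lin (β i q) ^ cc i q) :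
    ArcF J w m g h z y := by
  classical
  obtain ⟨p, b, β, hp, hpc, hH, hb0, hG⟩ := hS k σ ι τ w J e N m ℓ r n cc d g h z hw hJ hh hm hr
    hcr hc hnum hNo hFr hhz (fun i => by rw [← (hy i).2]; exact pow_ne_zero _ (hy i).1)
  obtain ⟨L, U, hXL, hgood, hU⟩ := hfld β
  let x : σ → k[X] := fun l => C (z l) * p l
  have hC : ∀ c : k, ((PowerSeries.C c : PowerSeries k) : LaurentSeries k) ∈ L := by
    intro c
    have h1 := L.algebraMap_mem c
    have h2 : ((PowerSeries.C c : PowerSeries k) : LaurentSeries k) =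
        algebraMap k (LaurentSeries k) c := by
      rw [PowerSeries.coe_C, LaurentSeries.algebraMap_apply]
    rw [h2]
    exact h1
  have hpoly : ∀ p : k[X], (((p : k[X]) : PowerSeries k) : LaurentSeries k) ∈ L := by
    intro p
    induction p using Polynomial.induction_on' with
    | add p q hp hq =>
      rw [Polynomial.coe_add, PowerSeries.coe_add]
      exact L.add_mem hp hq
    | monomial n c =>
      rw [← C_mul_X_pow_eq_monomial, Polynomial.coe_mul, Polynomial.coe_C, Polynomial.coe_pow,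
        Polynomial.coe_X, PowerSeries.coe_mul, PowerSeries.coe_pow]
      exact L.mul_mem (hC c) (L.pow_mem hXL n)
  let η : σ ⊕ ι → PowerSeries k := Sum.elim (fun l => (x l : PowerSeries k))
    (fun i => PowerSeries.C (y i) * (b i : PowerSeries k) * U i)
  have hη : ∀ s, (η s : LaurentSeries k) ∈ L := by
    rintro (l | i)
    · exact hpoly (x l)
    · change (((PowerSeries.C (y i) * (b i : PowerSeries k) * U i : PowerSeries k)) :
        LaurentSeries k) ∈ L
      rw [PowerSeries.coe_mul, PowerSeries.coe_mul]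
      exact L.mul_mem (L.mul_mem (hC _) (hpoly _)) (hU i).1
  have hη0 : ∀ s, PowerSeries.constantCoeff (η s) = Sum.elim z y s := by
    rintro (l | i)
    · change PowerSeries.constantCoeff ((x l : k[X]) : PowerSeries k) = z l
      rw [← PowerSeries.coeff_zero_eq_constantCoeff_apply, Polynomial.coeff_coe]
      change (C (z l) * p l).coeff 0 = z l
      rw [coeff_C_mul, hp.1 l, mul_one]
    · change PowerSeries.constantCoeff (PowerSeries.C (y i) * (b i : PowerSeries k) * U i) = y i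
      rw [map_mul, map_mul, (hU i).2.1, PowerSeries.constantCoeff_C,
        ← PowerSeries.coeff_zero_eq_constantCoeff_apply, Polynomial.coeff_coe, hb0]
      ring
  have hren : ∀ p : MvPolynomial σ k,
      MvPolynomial.aeval η (MvPolynomial.rename (Sum.inl : σ → σ ⊕ ι) p) =
        ((MvPolynomial.aeval x p : k[X]) : PowerSeries k) := by
    intro p
    rw [MvPolynomial.aeval_rename]
    have h1 : (Polynomial.coeToPowerSeries.algHom k).comp
        (MvPolynomial.aeval x : MvPolynomial σ k →ₐ[k] k[X]) =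
        MvPolynomial.aeval (η ∘ Sum.inl) := by
      apply MvPolynomial.algHom_ext
      intro l
      rw [AlgHom.comp_apply, MvPolynomial.aeval_X, MvPolynomial.aeval_X,
        Polynomial.coeToPowerSeries.algHom_apply]
      rw [Algebra.algebraMap_self, PowerSeries.map_id]
      rfl
    rw [← h1, AlgHom.comp_apply, Polynomial.coeToPowerSeries.algHom_apply,
      Algebra.algebraMap_self, PowerSeries.map_id]
    rfl
  refine ⟨L, MvPolynomial.aeval η, hgood, ?_, ?_, ?_, ?_, ?_, p, ?_, hp.1, hpc⟩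
  · intro p
    induction p using MvPolynomial.induction_on with
    | C c =>
      rw [MvPolynomial.aeval_C]
      exact hC c
    | add p q hp hq =>
      rw [map_add, PowerSeries.coe_add]
      exact L.add_mem hp hq
    | mul_X p s hp =>
      rw [map_mul, MvPolynomial.aeval_X, PowerSeries.coe_mul]
      exact L.mul_mem hp (hη s)
  · intro p
    induction p using MvPolynomial.induction_on with
    | C c =>
      rw [MvPolynomial.aeval_C, MvPolynomial.eval_C]
      exact PowerSeries.constantCoeff_C c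
    | add p q hp hq => rw [map_add, map_add, hp, hq, map_add]
    | mul_X p s hp =>
      rw [map_mul, map_mul, hp, MvPolynomial.aeval_X, hη0 s, map_mul, MvPolynomial.eval_X]
  · intro F hF
    rw [hren]
    have h1 := hp.2.2 F hF
    have h2 : MvPolynomial.aeval x F = 0 := h1
    rw [h2, Polynomial.coe_zero]
  · intro j
    rw [hren]
    have h2 : MvPolynomial.aeval x (h j) = 0 := hH j
    rw [h2, Polynomial.coe_zero]
  · intro i
    have h2 : MvPolynomial.aeval x (g i) = C (MvPolynomial.eval z (g i)) * (b i ^ m i *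
        ∏ q ∈ Finset.range (n i), (1 + C (β i q) * X) ^ cc i q) := hG i
    rw [map_sub, hren, h2, map_pow, MvPolynomial.aeval_X, sub_eq_zero]
    change (PowerSeries.C (y i) * (b i : PowerSeries k) * U i) ^ m i = _
    rw [mul_pow, mul_pow, (hU i).2.2, Polynomial.coe_mul, Polynomial.coe_mul, Polynomial.coe_C,
      Polynomial.coe_pow, ← map_pow, (hy i).2, mul_assoc]
    congr 2
    have h3 : ∀ (s : Finset ℕ) (f : ℕ → k[X]),
        ((∏ q ∈ s, f q : k[X]) : PowerSeries k) = ∏ q ∈ s, ((f q : k[X]) : PowerSeries k) := by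
      intro s f
      exact map_prod (Polynomial.coeToPowerSeries.ringHom (R := k)) f s
    rw [h3]
    refine Finset.prod_congr rfl fun q _ => ?_
    rw [Polynomial.coe_pow, toPS_lin]
  · intro l
    rw [MvPolynomial.aeval_X]
    rfl

theorem arcF_single (hS : SOLStmt.{u, v₁, v₂, v₃}) (w : σ → ℕ) (J : Set (MvPolynomial σ k))
    (e N : ℕ) (m ℓ : ι → ℕ) (d : τ → ℕ)
    (g : ι → MvPolynomial σ k) (h : τ → MvPolynomial σ k) (z : σ → k) (y : ι → k)
    (hw : Finset.univ.gcd w = 1) (hJ : ∀ F ∈ J, ∃ n, F.IsWeightedHomogeneous w n)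
    (hh : ∀ j, (h j).IsWeightedHomogeneous w (d j)) (hm : ∀ i, m i ≠ 0)
    (hNo : NoArc J w e z) (hFr : FreeArc J w e g m ℓ N z)
    (hhz : ∀ j, MvPolynomial.eval z (h j) = 0)
    (hy : ∀ i, y i ≠ 0 ∧ y i ^ m i = MvPolynomial.eval z (g i))
    (i₀ : ι) (n r₀ : ℕ) (c₀ : ℕ → ℕ) (hr : r₀ ≤ ℓ i₀)
    (hsum : ∑ q ∈ Finset.range n, c₀ q = m i₀ * r₀) (hc₀ : ∀ q < n, c₀ q ≠ 0)
    (hnum : ∑ i, m i * ℓ i + e * ∑ j, d j + r₀ + 1 < N + ∑ i, ℓ i + n)
    (hfld : ∀ β : ℕ → k, ∃ (L : IntermediateField k (LaurentSeries k))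
      (U : PowerSeries k), ((PowerSeries.X : PowerSeries k) : LaurentSeries k) ∈ L ∧
      Good k L ∧ (U : LaurentSeries k) ∈ L ∧ PowerSeries.constantCoeff U = 1 ∧
        U ^ m i₀ = ∏ q ∈ Finset.range n, lin (β q) ^ c₀ q) :
    ArcF J w m g h z y := by
  classical
  refine arcF hS w J e N m ℓ (fun i => if i = i₀ then r₀ else 0) (fun i => if i = i₀ then n else 0)
    (fun _ q => c₀ q) d g h z y hw hJ hh hm ?_ ?_ ?_ ?_ hNo hFr hhz hy ?_
  · intro i
    by_cases hi : i = i₀
    · subst hi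
      rw [if_pos rfl]
      exact hr
    · rw [if_neg hi]
      exact Nat.zero_le _
  · intro i
    by_cases hi : i = i₀
    · subst hi
      rw [if_pos rfl, if_pos rfl]
      exact hsum
    · rw [if_neg hi, if_neg hi]
      simp
  · intro i q hq
    by_cases hi : i = i₀
    · rw [if_pos hi] at hq
      exact hc₀ q hq
    · rw [if_neg hi] at hq
      omega
  · have h1 : ∑ i, (if i = i₀ then r₀ else 0) = r₀ := by simp
    have h2 : ∑ i, (if i = i₀ then n else 0) = n := by simp
    rw [h1, h2]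
    exact hnum
  · intro β
    obtain ⟨L, U, hX, hG, hU, hU1, hU2⟩ := hfld (β i₀)
    refine ⟨L, fun i => if i = i₀ then U else 1, hX, hG, ?_⟩
    intro i
    beta_reduce
    by_cases hi : i = i₀
    · subst hi
      rw [if_pos rfl, if_pos rfl]
      exact ⟨hU, hU1, hU2⟩
    · rw [if_neg hi, if_neg hi]
      refine ⟨?_, ?_, ?_⟩
      · rw [PowerSeries.coe_one]
        exact L.one_mem
      · exact map_one _
      · simp

theorem arcF_pair (hS : SOLStmt.{u, v₁, v₂, v₃}) (w : σ → ℕ) (J : Set (MvPolynomial σ k))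
    (e N : ℕ) (m ℓ : ι → ℕ) (d : τ → ℕ)
    (g : ι → MvPolynomial σ k) (h : τ → MvPolynomial σ k) (z : σ → k) (y : ι → k)
    (hw : Finset.univ.gcd w = 1) (hJ : ∀ F ∈ J, ∃ n, F.IsWeightedHomogeneous w n)
    (hh : ∀ j, (h j).IsWeightedHomogeneous w (d j)) (hm : ∀ i, m i ≠ 0)
    (hNo : NoArc J w e z) (hFr : FreeArc J w e g m ℓ N z)
    (hhz : ∀ j, MvPolynomial.eval z (h j) = 0)
    (hy : ∀ i, y i ≠ 0 ∧ y i ^ m i = MvPolynomial.eval z (g i))
    (i₀ i₁ : ι) (hne : i₀ ≠ i₁) (m₀ m₁ : ℕ) (hm₀ : m i₀ = 2 * m₀) (hm₁ : m i₁ = 2 * m₁)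
    (ha₀ : 1 ≤ ℓ i₀) (ha₁ : 1 ≤ ℓ i₁)
    (hnum : ∑ i, m i * ℓ i + e * ∑ j, d j + 1 < N + ∑ i, ℓ i + 2)
    (hfld : ∀ b₁ b₂ b₃ b₄ : k, ∃ (L : IntermediateField k (LaurentSeries k)) (U V : PowerSeries k),
    ((PowerSeries.X : PowerSeries k) : LaurentSeries k) ∈ L ∧ (U : LaurentSeries k) ∈ L ∧
    (V : LaurentSeries k) ∈ L ∧ PowerSeries.constantCoeff U = 1 ∧
    PowerSeries.constantCoeff V = 1 ∧ U ^ 2 = lin b₁ * lin b₂ ∧ V ^ 2 = lin b₃ * lin b₄ ∧
    Good k L) :
    ArcF J w m g h z y := by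
  classical
  have hm' := hm i₀
  have hm'' := hm i₁
  refine arcF hS w J e N m ℓ (fun i => if i = i₀ then 1 else if i = i₁ then 1 else 0)
    (fun i => if i = i₀ then 2 else if i = i₁ then 2 else 0)
    (fun i _ => m i / 2) d g h z y hw hJ hh hm ?_ ?_ ?_ ?_ hNo hFr hhz hy ?_
  · intro i
    by_cases hi : i = i₀
    · subst hi
      rw [if_pos rfl]
      exact ha₀
    · rw [if_neg hi]
      by_cases hi' : i = i₁
      · subst hi'
        rw [if_pos rfl]
        exact ha₁
      · rw [if_neg hi']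
        exact Nat.zero_le _
  · intro i
    by_cases hi : i = i₀
    · subst hi
      rw [if_pos rfl, if_pos rfl, Finset.sum_const, Finset.card_range]
      simp only [smul_eq_mul]
      omega
    · rw [if_neg hi, if_neg hi]
      by_cases hi' : i = i₁
      · subst hi'
        rw [if_pos rfl, if_pos rfl, Finset.sum_const, Finset.card_range]
        simp only [smul_eq_mul]
        omega
      · rw [if_neg hi', if_neg hi']
        simp
  · intro i q hq
    by_cases hi : i = i₀
    · subst hi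
      omega
    · rw [if_neg hi] at hq
      by_cases hi' : i = i₁
      · subst hi'
        omega
      · rw [if_neg hi'] at hq
        omega
  · have h1 : ∀ c : ℕ, ∑ i, (if i = i₀ then c else if i = i₁ then c else 0) = c + c := by
      intro c
      have h2 : ∀ i, (if i = i₀ then c else if i = i₁ then c else 0) =
          (if i = i₀ then c else 0) + (if i = i₁ then c else 0) := by
        intro i
        by_cases hi : i = i₀
        · subst hi
          rw [if_pos rfl, if_pos rfl, if_neg hne, add_zero]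
        · rw [if_neg hi, if_neg hi, zero_add]
      rw [Finset.sum_congr rfl fun i _ => h2 i, Finset.sum_add_distrib]
      simp
    rw [h1, h1]
    omega
  · intro β
    obtain ⟨L, U, V, hX, hU, hV, hU1, hV1, hU2, hV2, hG⟩ := hfld (β i₀ 0) (β i₀ 1) (β i₁ 0) (β i₁ 1)
    refine ⟨L, fun i => if i = i₀ then U else if i = i₁ then V else 1, hX, hG, ?_⟩
    intro i
    beta_reduce
    by_cases hi : i = i₀
    · subst hi
      rw [if_pos rfl, if_pos rfl]
      refine ⟨hU, hU1, ?_⟩
      rw [Finset.prod_range_succ, Finset.prod_range_succ, Finset.prod_range_zero, one_mul,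
        ← mul_pow, ← hU2, hm₀, Nat.mul_div_cancel_left _ (by norm_num), pow_mul]
    · rw [if_neg hi, if_neg hi]
      by_cases hi' : i = i₁
      · subst hi'
        rw [if_pos rfl, if_pos rfl]
        refine ⟨hV, hV1, ?_⟩
        rw [Finset.prod_range_succ, Finset.prod_range_succ, Finset.prod_range_zero, one_mul,
          ← mul_pow, ← hV2, hm₁, Nat.mul_div_cancel_left _ (by norm_num), pow_mul]
      · rw [if_neg hi', if_neg hi']
        refine ⟨?_, ?_, ?_⟩
        · rw [PowerSeries.coe_one]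
          exact L.one_mem
        · exact map_one _
        · simp

end

theorem farc (hS : SOLStmt.{u, v₁, v₂, v₃}) : FARCStmt.{u, v₁, v₂, v₃} := by
  intro k _ _ _ σ ι τ _ _ _ w J e N m ℓ d g h z y hw hJ hh hm2 hnum hNo hFr hhz hy
  classical
  have hm : ∀ i, m i ≠ 0 := fun i => by have := hm2 i; omega
  obtain ⟨F3, F4, F2, F22, F0⟩ := fldAll.{u} k
  rcases hnum with ⟨hnum, ⟨i₀, hl, hi | hi⟩ | ⟨i₀, hl, hi⟩ |
    ⟨i₀, i₁, hne, ⟨m₀, hm₀⟩, ⟨m₁, hm₁⟩, hl₀, hl₁⟩⟩ | ⟨hnum, ⟨i₀, hl⟩⟩
  · obtain ⟨m', hm'⟩ := hi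
    have h0 := hm i₀
    refine arcF_single hS w J e N m ℓ d g h z y hw hJ hh hm hNo hFr hhz hy i₀ 3 1 (fun _ => m') hl
      ?_ ?_ (by omega) ?_
    · simp
      omega
    · intro q _
      omega
    · intro β
      obtain ⟨L, U, hX, hU, hU1, hU2, hG⟩ := F3 (β 0) (β 1) (β 2)
      refine ⟨L, U, hX, hG, hU, hU1, ?_⟩
      rw [hm', pow_mul, hU2, Finset.prod_range_succ, Finset.prod_range_succ,
        Finset.prod_range_succ, Finset.prod_range_zero]
      ring
  · obtain ⟨m', hm'⟩ := hi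
    have h0 := hm i₀
    refine arcF_single hS w J e N m ℓ d g h z y hw hJ hh hm hNo hFr hhz hy i₀ 3 1
      (fun q => if q = 2 then 2 * m' else m') hl ?_ ?_ (by omega) ?_
    · simp [Finset.sum_range_succ]
      omega
    · intro q _
      split_ifs <;> omega
    · intro β
      obtain ⟨L, U, hX, hU, hU1, hU2, hG⟩ := F4 (β 0) (β 1) (β 2)
      refine ⟨L, U, hX, hG, hU, hU1, ?_⟩
      rw [hm', pow_mul, hU2, Finset.prod_range_succ, Finset.prod_range_succ,
        Finset.prod_range_succ, Finset.prod_range_zero]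
      norm_num
      ring
  · obtain ⟨m', hm'⟩ := hi
    have h0 := hm i₀
    refine arcF_single hS w J e N m ℓ d g h z y hw hJ hh hm hNo hFr hhz hy i₀ 4 2 (fun _ => m') hl
      ?_ ?_ (by omega) ?_
    · simp
      omega
    · intro q _
      omega
    · intro β
      obtain ⟨L, U, hX, hU, hU1, hU2, hG⟩ := F2 (β 0) (β 1) (β 2) (β 3)
      refine ⟨L, U, hX, hG, hU, hU1, ?_⟩
      rw [hm', pow_mul, hU2, Finset.prod_range_succ, Finset.prod_range_succ,
        Finset.prod_range_succ, Finset.prod_range_succ, Finset.prod_range_zero]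
      ring
  · exact arcF_pair hS w J e N m ℓ d g h z y hw hJ hh hm hNo hFr hhz hy i₀ i₁ hne m₀ m₁ hm₀ hm₁
      hl₀ hl₁ (by omega) F22
  · have h0 := hm2 i₀
    refine arcF_single hS w J e N m ℓ d g h z y hw hJ hh hm hNo hFr hhz hy i₀ 2 1
      (fun q => if q = 0 then 1 else m i₀ - 1) hl ?_ ?_ (by omega) ?_
    · simp [Finset.sum_range_succ]
      omega
    · intro q _
      split_ifs <;> omega
    · intro β
      obtain ⟨L, U, hX, hU, hU1, hU2, hG⟩ := F0 (m i₀) (β 0) (β 1) (hm i₀)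
      refine ⟨L, U, hX, hG, hU, hU1, ?_⟩
      rw [hU2, Finset.prod_range_succ, Finset.prod_range_succ, Finset.prod_range_zero]
      norm_num

end Pool.Agent.PGF.H64
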